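import Pool.Agent.W659.FD.Stm

/-! FD-APP: the approximate square root of a monic polynomial of even degree. -/

set_option autoImplicit false

namespace Pool.Agent.W340.FD.App

open Pool.Agent.W659.FD MvPolynomial

variable {F : Type} [Field F] {n : ℕ}

theorem filt_add {a b : Polynomial (MvPolynomial (Fin n) F)} {N : ℕ} (ha : Filt a N)
    (hb : Filt b N) : Filt (a + b) N := by
  intro j
  rw [Polynomial.coeff_add]
  rcases ha j with h1 | h1
  · rw [h1, zero_add]; exact hb j
  · rcases hb j with h2 | h2
    · rw [h2, add_zero]; exact Or.inr h1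
    · right
      have := MvPolynomial.totalDegree_add (a.coeff j) (b.coeff j)
      rcases le_max_iff.1 this with h | h <;> omega

theorem filt_neg {a : Polynomial (MvPolynomial (Fin n) F)} {N : ℕ} (ha : Filt a N) :
    Filt (-a) N := by
  intro j
  rw [Polynomial.coeff_neg, neg_eq_zero, MvPolynomial.totalDegree_neg]
  exact ha j

theorem filt_sub {a b : Polynomial (MvPolynomial (Fin n) F)} {N : ℕ} (ha : Filt a N)
    (hb : Filt b N) : Filt (a - b) N := by
  rw [sub_eq_add_neg]; exact filt_add ha (filt_neg hb)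

theorem filt_mul {a b : Polynomial (MvPolynomial (Fin n) F)} {N M : ℕ} (ha : Filt a N)
    (hb : Filt b M) : Filt (a * b) (N + M) := by
  intro j
  by_cases h0 : (a * b).coeff j = 0
  · exact Or.inl h0
  right
  rw [Polynomial.coeff_mul] at h0 ⊢
  obtain ⟨p, hp, hne⟩ := Finset.exists_ne_zero_of_sum_ne_zero h0
  rw [Finset.HasAntidiagonal.mem_antidiagonal] at hp
  have ha1 := (ha p.1).resolve_left (left_ne_zero_of_mul hne)
  have hb1 := (hb p.2).resolve_left (right_ne_zero_of_mul hne)
  have hj : j ≤ N + M := by omega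
  have hle : (∑ x ∈ Finset.HasAntidiagonal.antidiagonal j, a.coeff x.1 * b.coeff x.2).totalDegree ≤ N + M - j := by
    refine MvPolynomial.totalDegree_finsetSum_le fun x hx => ?_
    rw [Finset.HasAntidiagonal.mem_antidiagonal] at hx
    by_cases h1 : a.coeff x.1 = 0
    · rw [h1, zero_mul, MvPolynomial.totalDegree_zero]; exact Nat.zero_le _
    by_cases h2 : b.coeff x.2 = 0
    · rw [h2, mul_zero, MvPolynomial.totalDegree_zero]; exact Nat.zero_le _
    have ha2 := (ha x.1).resolve_left h1
    have hb2 := (hb x.2).resolve_left h2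
    have := MvPolynomial.totalDegree_mul (a.coeff x.1) (b.coeff x.2)
    omega
  omega

theorem filt_mono' (c : MvPolynomial (Fin n) F) (i N : ℕ) (h : c = 0 ∨ c.totalDegree + i ≤ N) :
    Filt (Polynomial.C c * Polynomial.X ^ i) N := by
  intro j
  rw [Polynomial.coeff_C_mul_X_pow]
  split_ifs with hj
  · subst hj; exact h
  · exact Or.inl rfl

theorem step (h2 : (2 : F) ≠ 0) (Q : Polynomial (MvPolynomial (Fin n) F)) (e : ℕ)
    (hQ : Q.Monic) (hdeg : Q.natDegree = 2 * e) (hF : Filt Q (2 * e)) (k : ℕ) (hk : k ≤ e) :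
    ∃ g : Polynomial (MvPolynomial (Fin n) F), g.Monic ∧ g.natDegree = e ∧ Filt g e ∧
      ∀ j, 2 * e - k ≤ j → (Q - g ^ 2).coeff j = 0 := by
  induction k with
  | zero =>
    refine ⟨Polynomial.X ^ e, Polynomial.monic_X_pow e, Polynomial.natDegree_X_pow e, ?_, ?_⟩
    · have := filt_mono' (1 : MvPolynomial (Fin n) F) e e (Or.inr (by simp))
      simpa using this
    · intro j hj
      rw [← pow_mul, Polynomial.coeff_sub, Polynomial.coeff_X_pow]
      split_ifs with h
      · rw [h, mul_comm e 2, ← hdeg, Polynomial.Monic.coeff_natDegree hQ, sub_self]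
      · rw [Polynomial.coeff_eq_zero_of_natDegree_lt (by omega), sub_zero]
  | succ k ih =>
    obtain ⟨g, hg, hgd, hgF, hgc⟩ := ih (by omega)
    set c := (Q - g ^ 2).coeff (2 * e - k - 1) with hc
    set h : Polynomial (MvPolynomial (Fin n) F) :=
      Polynomial.C (C (1 / 2 : F) * c) * Polynomial.X ^ (e - k - 1) with hh
    have hhalf : (2 : Polynomial (MvPolynomial (Fin n) F)) * h =
        Polynomial.C c * Polynomial.X ^ (e - k - 1) := by
      have e1 : (2 : Polynomial (MvPolynomial (Fin n) F)) * Polynomial.C (C (1 / 2 : F) * c) =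
          Polynomial.C c := by
        have e2 : (2 : Polynomial (MvPolynomial (Fin n) F)) = Polynomial.C (C (2 : F)) := by
          rw [map_ofNat, map_ofNat]
        rw [e2, ← Polynomial.C_mul, ← mul_assoc, ← C_mul, mul_one_div_cancel h2, C_1, one_mul]
      rw [hh, ← mul_assoc, e1]
    have hlt : h.natDegree < g.natDegree := by
      rw [hgd]
      exact lt_of_le_of_lt (Polynomial.natDegree_C_mul_X_pow_le _ _) (by omega)
    have hlt' : h.degree < g.degree := by
      rw [Polynomial.degree_eq_natDegree hg.ne_zero, hgd]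
      exact lt_of_le_of_lt (Polynomial.degree_C_mul_X_pow_le _ _) (by exact_mod_cast (by omega))
    have hFQ : Filt (Q - g ^ 2) (2 * e) := by
      refine filt_sub hF ?_
      rw [sq, two_mul]; exact filt_mul hgF hgF
    refine ⟨g + h, hg.add_of_left hlt', ?_, ?_, ?_⟩
    · rw [Polynomial.natDegree_add_eq_left_of_natDegree_lt hlt, hgd]
    · refine filt_add hgF (filt_mono' _ _ _ ?_)
      rcases hFQ (2 * e - k - 1) with h1 | h1
      · left; rw [← hc] at h1; rw [h1, mul_zero]
      · right
        rw [← hc] at h1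
        have := MvPolynomial.totalDegree_mul (C (1 / 2 : F)) c
        rw [MvPolynomial.totalDegree_C] at this
        omega
    · intro j hj
      have e3 : Q - (g + h) ^ 2 = (Q - g ^ 2) - g * (2 * h) - h * h := by ring
      have e4 : (g * (2 * h)).coeff j = c * g.coeff (j - (e - k - 1)) := by
        rw [hhalf, mul_left_comm, Polynomial.coeff_C_mul, Polynomial.coeff_mul_X_pow', if_pos (by omega)]
      have e5 : (h * h).coeff j = 0 := by
        apply Polynomial.coeff_eq_zero_of_natDegree_lt
        have h3 := Polynomial.natDegree_mul_le (p := h) (q := h)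
        have h4 : h.natDegree ≤ e - k - 1 := Polynomial.natDegree_C_mul_X_pow_le _ _
        omega
      rw [e3, Polynomial.coeff_sub, Polynomial.coeff_sub, e4, e5, sub_zero]
      by_cases hj' : j = 2 * e - k - 1
      · have h5 : j - (e - k - 1) = e := by omega
        have h6 : g.coeff e = 1 := by rw [← hgd]; exact hg.coeff_natDegree
        rw [h5, h6, mul_one, hj', ← hc, sub_self]
      · rw [hgc j (by omega), Polynomial.coeff_eq_zero_of_natDegree_lt (p := g) (by omega), mul_zero,
          sub_zero]

theorem main : S_APP := by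
  intro F _ h2 n Q e hQ hdeg hF
  obtain ⟨g, hg, hgd, hgF, hgc⟩ := step h2 Q e hQ hdeg hF e le_rfl
  refine ⟨g, hg, hgd, hgF, ?_, fun j hj => hgc j (by omega)⟩
  refine filt_sub hF ?_
  rw [sq, two_mul]; exact filt_mul hgF hgF

end Pool.Agent.W340.FD.App
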